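import Pool.Agent.Y489.GE.Stm

/-!
# Short closed geodesics from isometric involutions with non connected fixed point sets
-/

set_option autoImplicit false

open Set Topology

namespace Pool.Agent.K7.H35.M

open Pool.Agent.Y489.GE

variable {X : Type} [MetricSpace X]

/-- a curve moved into itself by an isometry of finite order is a closed geodesic if it is locally
minimal on one fundamental domain -/
theorem closed_of_shift (φ : X ≃ᵢ X) (m : ℕ) (hm : 1 ≤ m) (hφ : φ ^ m = 1) (L : ℝ) (hL : 0 < L)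
    (γ : ℝ → X) (hγ : ∀ t, γ (t + L) = φ (γ t)) (ε : ℝ) (hε : 0 < ε)
    (h : ∀ s t : ℝ, 0 ≤ s → s < L → s ≤ t → t ≤ s + ε → dist (γ s) (γ t) = t - s) :
    ClosedGeod X (m * L) := by
  have hk : ∀ (k : ℕ) (t : ℝ), γ (t + k * L) = (φ ^ k) (γ t) := by
    intro k
    induction k with
    | zero => intro t; simp
    | succ k ih =>
      intro t
      have e : t + ((k + 1 : ℕ) : ℝ) * L = (t + k * L) + L := by push_cast; ring
      rw [e, hγ, ih, pow_succ', IsometryEquiv.mul_apply]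
  have hper : ∀ t, γ (t + m * L) = γ t := by
    intro t
    rw [hk, hφ]
    rfl
  refine ⟨γ, m * L, by positivity, le_rfl, hper, ε, hε, ?_⟩
  have hz : ∀ (k : ℤ) (t : ℝ), γ (t + k * (m * L)) = γ t := by
    intro k
    have hn : ∀ (k : ℕ) (t : ℝ), γ (t + k * (m * L)) = γ t := by
      intro k
      induction k with
      | zero => intro t; simp
      | succ k ih =>
        intro t
        have e : t + ((k + 1 : ℕ) : ℝ) * (m * L) = (t + k * (m * L)) + m * L := by push_cast; ring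
        rw [e, hper, ih]
    intro t
    obtain ⟨n, hn' | hn'⟩ := k.eq_nat_or_neg
    · subst hn'
      exact_mod_cast hn n t
    · subst hn'
      have h1 := hn n (t + ((-(n : ℤ) : ℤ) : ℝ) * (m * L))
      rw [← h1]
      congr 1
      push_cast
      ring
  -- the statement for `s ≤ t`
  have key : ∀ s t : ℝ, s ≤ t → t ≤ s + ε → dist (γ s) (γ t) = t - s := by
    intro s t hst hte
    have hmL : 0 < (m : ℝ) * L := by positivity
    -- move `s` to `[0, m L)`
    set k : ℤ := ⌊s / (m * L)⌋ with hkdef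
    set s' : ℝ := s - k * (m * L) with hs'
    have h0 : 0 ≤ s' := by
      have := Int.floor_le (s / (m * L))
      have h2 : (k : ℝ) * (m * L) ≤ s := by
        rw [le_div_iff₀ hmL] at this
        exact this
      linarith
    set j : ℕ := ⌊s' / L⌋₊ with hj
    set s'' : ℝ := s' - j * L with hs''
    have h1 : 0 ≤ s'' := by
      have := Nat.floor_le (div_nonneg h0 hL.le)
      rw [← hj, le_div_iff₀ hL] at this
      linarith
    have h2 : s'' < L := by
      have := Nat.lt_floor_add_one (s' / L)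
      rw [← hj, div_lt_iff₀ hL] at this
      linarith
    have h3 := h s'' (s'' + (t - s)) h1 h2 (by linarith) (by linarith)
    have e1 : γ s = (φ ^ j) (γ s'') := by
      rw [← hk j s'']
      have : s'' + j * L = s' := by rw [hs'']; ring
      rw [this]
      have : s' + k * (m * L) = s := by rw [hs']; ring
      rw [← this, hz]
    have e2 : γ t = (φ ^ j) (γ (s'' + (t - s))) := by
      rw [← hk j]
      have : s'' + (t - s) + j * L = s' + (t - s) := by rw [hs'']; ring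
      rw [this]
      have : s' + (t - s) + k * (m * L) = t := by rw [hs']; ring
      rw [← this, hz]
      congr 1
      rw [hs']
      ring
    rw [e1, e2, (φ ^ j).dist_eq, h3]
    ring
  intro s t hst
  rcases le_total s t with h1 | h1
  · rw [abs_sub_comm, abs_of_nonneg (by linarith)] at hst ⊢
    exact key s t h1 (by linarith)
  · rw [abs_of_nonneg (by linarith)] at hst ⊢
    rw [dist_comm]
    exact key t s h1 (by linarith)

/-- a minimal geodesic parametrised by arc length -/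
theorem exists_arc (hX : GeodSpace X) (x y : X) :
    ∃ c : ℝ → X, c 0 = x ∧ c (dist x y) = y ∧
      ∀ s ∈ Icc (0 : ℝ) (dist x y), ∀ t ∈ Icc (0 : ℝ) (dist x y), dist (c s) (c t) = |s - t| := by
  rcases eq_or_ne x y with rfl | hne
  · refine ⟨fun _ => x, rfl, rfl, fun s hs t ht => ?_⟩
    rw [dist_self] at hs ht ⊢
    have h1 : s = 0 := le_antisymm hs.2 hs.1
    have h2 : t = 0 := le_antisymm ht.2 ht.1
    rw [h1, h2]
    simp
  · have hd : 0 < dist x y := dist_pos.2 hne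
    obtain ⟨c, h0, h1, h2⟩ := hX x y
    refine ⟨fun t => c (t / dist x y), by simp [h0], ?_, fun s hs t ht => ?_⟩
    · show c (dist x y / dist x y) = y
      rw [div_self hd.ne', h1]
    · show dist (c (s / dist x y)) (c (t / dist x y)) = |s - t|
      rw [h2 _ ⟨div_nonneg hs.1 hd.le, div_le_one_of_le₀ hs.2 hd.le⟩ _
        ⟨div_nonneg ht.1 hd.le, div_le_one_of_le₀ ht.2 hd.le⟩, ← sub_div, abs_div, abs_of_pos hd,
        div_mul_cancel₀ _ hd.ne']

/-- an isometry of order `m` without fixed points -/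
theorem free_isometry [CompactSpace X] (hX : GeodSpace X) (φ : X ≃ᵢ X) (m : ℕ) (hm : 1 ≤ m)
    (hφ : φ ^ m = 1) (hfix : ∀ x, φ x ≠ x) (y : X) : ClosedGeod X (m * dist y (φ y)) := by
  have hcont : Continuous fun x : X => dist x (φ x) := continuous_id.dist φ.continuous
  obtain ⟨x, -, hx⟩ := isCompact_univ.exists_isMinOn (⟨y, mem_univ y⟩ : (univ : Set X).Nonempty)
    hcont.continuousOn
  have hmin : ∀ z, dist x (φ x) ≤ dist z (φ z) := fun z => hx (mem_univ z)
  set δ := dist x (φ x) with hδ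
  have hδ0 : 0 < δ := dist_pos.2 (fun h => hfix x h.symm)
  obtain ⟨c, c0, c1, cd⟩ := exists_arc hX x (φ x)
  rw [← hδ] at c1 cd
  set γ : ℝ → X := fun t => (φ ^ ⌊t / δ⌋) (c (t - ⌊t / δ⌋ * δ)) with hγ
  have hsh : ∀ t, γ (t + δ) = φ (γ t) := by
    intro t
    have e : (t + δ) / δ = t / δ + 1 := by field_simp
    simp only [hγ]
    rw [e, Int.floor_add_one, zpow_add, zpow_one]
    have e2 : t + δ - ((⌊t / δ⌋ + 1 : ℤ) : ℝ) * δ = t - ⌊t / δ⌋ * δ := by push_cast; ring
    rw [e2, ← IsometryEquiv.mul_apply]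
    rw [((Commute.refl φ).zpow_left _).eq]
  have hγ0 : ∀ t, 0 ≤ t → t < δ → γ t = c t := by
    intro t h0 h1
    have e : ⌊t / δ⌋ = 0 := by
      rw [Int.floor_eq_zero_iff]
      exact ⟨div_nonneg h0 hδ0.le, (div_lt_one hδ0).2 h1⟩
    simp only [hγ]
    rw [e]
    simp
  have hγ1 : ∀ t, δ ≤ t → t < 2 * δ → γ t = φ (c (t - δ)) := by
    intro t h0 h1
    have := hsh (t - δ)
    rw [sub_add_cancel] at this
    rw [this, hγ0 _ (by linarith) (by linarith)]
  have hlip : ∀ s t, 0 ≤ s → s ≤ t → t < 2 * δ → dist (γ s) (γ t) ≤ t - s := by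
    intro s t h0 h1 h2
    rcases lt_or_ge t δ with h | h
    · rw [hγ0 s h0 (by linarith), hγ0 t (by linarith) h, cd s ⟨h0, by linarith⟩ t
        ⟨by linarith, h.le⟩, abs_sub_comm, abs_of_nonneg (by linarith)]
    · rcases lt_or_ge s δ with h' | h'
      · rw [hγ0 s h0 h', hγ1 t h h2]
        have h3 : dist (c s) (φ x) = δ - s := by
          rw [← c1, cd s ⟨h0, h'.le⟩ δ ⟨hδ0.le, le_rfl⟩, abs_sub_comm,
            abs_of_nonneg (by linarith)]
        have h4 : dist (φ x) (φ (c (t - δ))) = t - δ := by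
          rw [φ.dist_eq, ← c0, cd 0 ⟨le_rfl, hδ0.le⟩ (t - δ) ⟨by linarith, by linarith⟩,
            abs_sub_comm, sub_zero, abs_of_nonneg (by linarith)]
        linarith [dist_triangle (c s) (φ x) (φ (c (t - δ)))]
      · rw [hγ1 s h' (by linarith), hγ1 t h h2, φ.dist_eq, cd (s - δ) ⟨by linarith, by linarith⟩
          (t - δ) ⟨by linarith, by linarith⟩, abs_sub_comm, abs_of_nonneg (by linarith)]
        linarith
  have hcl := closed_of_shift φ m hm hφ δ hδ0 γ hsh (δ / 2) (by linarith) (by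
    intro s t h0 h1 h2 h3
    refine le_antisymm (hlip s t h0 h2 (by linarith)) ?_
    have h4 : δ ≤ dist (γ s) (γ (s + δ)) := by
      rw [hsh]
      exact hmin _
    have h5 := hlip t (s + δ) (by linarith) (by linarith) (by linarith)
    have h6 := dist_triangle (γ s) (γ t) (γ (s + δ))
    linarith)
  obtain ⟨g, l, l0, l1, hg⟩ := hcl
  refine ⟨g, l, l0, l1.trans ?_, hg⟩
  exact mul_le_mul_of_nonneg_left (hmin y) (Nat.cast_nonneg m)

/-- the joint at a mirror -/
theorem joint (hX : GeodSpace X) {r : ℝ} (hr : 0 < r) (hU : UniqGeod X r) (σ : X ≃ᵢ X)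
    (hσ : ∀ x, σ (σ x) = x) (F : Set X) (p : X) {η : ℝ} (hη : 0 < η)
    (hF : ∀ z, σ z = z → dist z p < η → z ∈ F) (hp : σ p = p) {δ : ℝ} (hδ : 0 < δ) (c : ℝ → X)
    (c0 : c 0 = p)
    (cd : ∀ s ∈ Icc (0 : ℝ) δ, ∀ t ∈ Icc (0 : ℝ) δ, dist (c s) (c t) = |s - t|)
    (hmin : ∀ z ∈ F, δ ≤ dist z (c δ)) :
    ∃ ε : ℝ, 0 < ε ∧ ε ≤ δ ∧ ∀ s t : ℝ, 0 ≤ s → s ≤ ε → 0 ≤ t → t ≤ ε →
      dist (σ (c s)) (c t) = s + t := by
  set ε : ℝ := min δ (min (r / 4) (η / 4)) with hε
  have e0 : 0 < ε := by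
    rw [hε]
    exact lt_min hδ (lt_min (by linarith) (by linarith))
  have e1 : ε ≤ δ := min_le_left _ _
  have e2 : ε ≤ r / 4 := (min_le_right _ _).trans (min_le_left _ _)
  have e3 : ε ≤ η / 4 := (min_le_right _ _).trans (min_le_right _ _)
  have hup : ∀ s t : ℝ, 0 ≤ s → s ≤ δ → 0 ≤ t → t ≤ δ → dist (σ (c s)) (c t) ≤ s + t := by
    intro s t h1 h2 h3 h4
    have h5 : dist (σ (c s)) p = s := by
      rw [← hp, σ.dist_eq, ← c0, cd s ⟨h1, h2⟩ 0 ⟨le_rfl, hδ.le⟩, sub_zero, abs_of_nonneg h1]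
    have h6 : dist p (c t) = t := by
      rw [← c0, cd 0 ⟨le_rfl, hδ.le⟩ t ⟨h3, h4⟩, zero_sub, abs_neg, abs_of_nonneg h3]
    linarith [dist_triangle (σ (c s)) p (c t)]
  have hfull : 2 * ε ≤ dist (σ (c ε)) (c ε) := by
    set a := c ε with ha
    obtain ⟨b, b0, b1, bd⟩ := hX (σ a) a
    set z := b (1 / 2) with hz
    have hz1 : dist (σ a) z = dist (σ a) a / 2 := by
      have := bd 0 ⟨le_rfl, zero_le_one⟩ (1 / 2) ⟨by norm_num, by norm_num⟩
      rw [b0] at this
      rw [this, zero_sub, abs_neg, abs_of_pos (by norm_num : (0 : ℝ) < 1 / 2)]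
      ring
    have hz2 : dist z a = dist (σ a) a / 2 := by
      have := bd (1 / 2) ⟨by norm_num, by norm_num⟩ 1 ⟨zero_le_one, le_rfl⟩
      rw [b1] at this
      rw [this]
      norm_num
      ring
    have hda : dist (σ a) a ≤ 2 * ε := by
      have := hup ε ε e0.le e1 e0.le e1
      linarith
    have hw1 : dist (σ a) (σ z) = dist (σ a) a / 2 := by
      rw [σ.dist_eq, dist_comm, hz2]
    have hw2 : dist (σ z) a = dist (σ a) a / 2 := by
      have : dist (σ z) a = dist (σ z) (σ (σ a)) := by rw [hσ]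
      rw [this, σ.dist_eq, dist_comm, hz1]
    have hzσ : z = σ z := by
      refine hU (σ a) a z (σ z) (by linarith) (by rw [hz1, hz2]; ring) (by rw [hw1, hw2]; ring) ?_
      rw [hz1, hw1]
    have hzp : dist z p < η := by
      have h1 : dist a p = ε := by
        rw [ha, ← c0, cd ε ⟨e0.le, e1⟩ 0 ⟨le_rfl, hδ.le⟩, sub_zero, abs_of_nonneg e0.le]
      have h2 := dist_triangle z a p
      linarith
    have hzF := hmin z (hF z hzσ.symm hzp)
    have h3 : dist a (c δ) = δ - ε := by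
      rw [ha, cd ε ⟨e0.le, e1⟩ δ ⟨hδ.le, le_rfl⟩, abs_sub_comm, abs_of_nonneg (by linarith)]
    have h4 := dist_triangle z a (c δ)
    linarith
  refine ⟨ε, e0, e1, fun s t h1 h2 h3 h4 => ?_⟩
  refine le_antisymm (hup s t h1 (h2.trans e1) h3 (h4.trans e1)) ?_
  have h5 : dist (σ (c ε)) (σ (c s)) = ε - s := by
    rw [σ.dist_eq, cd ε ⟨e0.le, e1⟩ s ⟨h1, h2.trans e1⟩, abs_of_nonneg (by linarith)]
  have h6 : dist (c t) (c ε) = ε - t := by
    rw [cd t ⟨h3, h4.trans e1⟩ ε ⟨e0.le, e1⟩, abs_sub_comm, abs_of_nonneg (by linarith)]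
  have h7 := dist_triangle4 (σ (c ε)) (σ (c s)) (c t) (c ε)
  linarith

/-- two mirrors -/
theorem two_mirrors (hX : GeodSpace X) {r : ℝ} (hr : 0 < r) (hU : UniqGeod X r) (σ τ : X ≃ᵢ X)
    (hσ : ∀ x, σ (σ x) = x) (hτ : ∀ x, τ (τ x) = x) (m : ℕ) (hm : 1 ≤ m)
    (hστ : (τ * σ) ^ m = 1) (F G : Set X) (p q : X) {η : ℝ} (hη : 0 < η)
    (hF : ∀ z, σ z = z → dist z p < η → z ∈ F) (hG : ∀ z, τ z = z → dist z q < η → z ∈ G)
    (hp : σ p = p) (hq : τ q = q) (hpq : p ≠ q) (hFq : ∀ z ∈ F, dist p q ≤ dist z q)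
    (hGp : ∀ z ∈ G, dist p q ≤ dist p z) :
    ClosedGeod X (2 * m * dist p q) := by
  set δ := dist p q with hδ
  have hδ0 : 0 < δ := dist_pos.2 hpq
  obtain ⟨c, c0, c1, cd⟩ := exists_arc hX p q
  rw [← hδ] at c1 cd
  obtain ⟨ε₁, a1, a2, a3⟩ := joint hX hr hU σ hσ F p hη hF hp hδ0 c c0 cd (by
    intro z hz
    rw [c1]
    exact hFq z hz)
  obtain ⟨ε₂, b1, b2, b3⟩ := joint hX hr hU τ hτ G q hη hG hq hδ0 (fun t => c (δ - t))
    (by simp [c1]) (by
      intro s hs t ht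
      rw [cd (δ - s) ⟨by linarith [hs.2], by linarith [hs.1]⟩ (δ - t)
        ⟨by linarith [ht.2], by linarith [ht.1]⟩, abs_sub_comm]
      congr 1
      ring) (by
      intro z hz
      show δ ≤ dist z (c (δ - δ))
      rw [sub_self, c0, dist_comm]
      exact hGp z hz)
  set φ : X ≃ᵢ X := τ * σ with hφ
  set L : ℝ := 2 * δ with hL
  have hL0 : 0 < L := by linarith
  -- the curve on `[0, 2 δ]`
  set β : ℝ → X := fun t => if t ≤ δ then c t else τ (c (2 * δ - t)) with hβ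
  set γ : ℝ → X := fun t => (φ ^ ⌊t / L⌋) (β (t - ⌊t / L⌋ * L)) with hγ
  have hsh : ∀ t, γ (t + L) = φ (γ t) := by
    intro t
    have e : (t + L) / L = t / L + 1 := by field_simp
    simp only [hγ]
    rw [e, Int.floor_add_one, zpow_add, zpow_one]
    have e2 : t + L - ((⌊t / L⌋ + 1 : ℤ) : ℝ) * L = t - ⌊t / L⌋ * L := by push_cast; ring
    rw [e2, ← IsometryEquiv.mul_apply]
    rw [((Commute.refl φ).zpow_left _).eq]
  have hγ0 : ∀ t, 0 ≤ t → t ≤ δ → γ t = c t := by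
    intro t h0 h1
    have e : ⌊t / L⌋ = 0 := by
      rw [Int.floor_eq_zero_iff]
      exact ⟨div_nonneg h0 hL0.le, (div_lt_one hL0).2 (by linarith)⟩
    simp only [hγ]
    rw [e]
    simp [hβ, h1]
  have hγ1 : ∀ t, δ ≤ t → t < 2 * δ → γ t = τ (c (2 * δ - t)) := by
    intro t h0 h1
    have e : ⌊t / L⌋ = 0 := by
      rw [Int.floor_eq_zero_iff]
      exact ⟨div_nonneg (by linarith) hL0.le, (div_lt_one hL0).2 (by linarith)⟩
    simp only [hγ]
    rw [e]
    rcases eq_or_lt_of_le h0 with h | h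
    · subst h
      have h2 : 2 * δ - δ = δ := by ring
      simp [hβ, h2, c1, hq]
    · simp [hβ, not_le.2 h]
  have hγ2 : ∀ t, 2 * δ ≤ t → t ≤ 3 * δ → γ t = τ (σ (c (t - 2 * δ))) := by
    intro t h0 h1
    have := hsh (t - L)
    rw [sub_add_cancel] at this
    rw [this, hγ0 _ (by linarith) (by linarith)]
    rfl
  have hcl := closed_of_shift φ m hm hστ L hL0 γ hsh (min ε₁ ε₂) (lt_min a1 b1) (by
    intro s t h0 h1 h2 h3
    have h4 : min ε₁ ε₂ ≤ ε₁ := min_le_left _ _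
    have h5 : min ε₁ ε₂ ≤ ε₂ := min_le_right _ _
    rcases lt_or_ge s δ with hs | hs
    · rcases le_or_gt t δ with ht | ht
      · rw [hγ0 s h0 hs.le, hγ0 t (by linarith) ht, cd s ⟨h0, hs.le⟩ t ⟨by linarith, ht⟩,
          abs_sub_comm, abs_of_nonneg (by linarith)]
      · rw [hγ0 s h0 hs.le, hγ1 t ht.le (by linarith), dist_comm]
        have h6 := b3 (t - δ) (δ - s) (by linarith) (by linarith) (by linarith) (by linarith)
        have e1 : δ - (t - δ) = 2 * δ - t := by ring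
        have e2 : δ - (δ - s) = s := by ring
        simp only [e1, e2] at h6
        rw [h6]
        ring
    · rcases lt_or_ge t (2 * δ) with ht | ht
      · rw [hγ1 s hs (by linarith), hγ1 t (by linarith) ht, τ.dist_eq,
          cd (2 * δ - s) ⟨by linarith, by linarith⟩ (2 * δ - t) ⟨by linarith, by linarith⟩,
          abs_of_nonneg (by linarith)]
        ring
      · rw [hγ1 s hs (by linarith), hγ2 t ht (by linarith), τ.dist_eq, dist_comm,
          a3 (t - 2 * δ) (2 * δ - s) (by linarith) (by linarith) (by linarith) (by linarith)]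
        ring)
  have e : (2 : ℝ) * m * δ = m * L := by rw [hL]; ring
  rw [e]
  exact hcl

/-- **The mirror theorem**: a separation of the union of the fixed point sets of isometric
involutions with products of order dividing `m`. -/
theorem mirror [CompactSpace X] (hX : GeodSpace X) {r : ℝ} (hr : 0 < r) (hU : UniqGeod X r)
    (S : Set (X ≃ᵢ X)) (m : ℕ) (hm : 1 ≤ m) (h2 : ∀ σ ∈ S, σ * σ = 1)
    (hprod : ∀ σ ∈ S, ∀ τ ∈ S, (σ * τ) ^ m = 1) (A B : Set X) (hA : IsClosed A)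
    (hB : IsClosed B) (hAB : Disjoint A B) (hcov : A ∪ B = {x | ∃ σ ∈ S, σ x = x}) (a b : X)
    (ha : a ∈ A) (hb : b ∈ B) : ClosedGeod X (2 * m * dist a b) := by
  have hinv : ∀ σ ∈ S, ∀ x, σ (σ x) = x := by
    intro σ hσ x
    have := h2 σ hσ
    rw [← IsometryEquiv.mul_apply, this]
    rfl
  obtain ⟨⟨p, q⟩, ⟨hp, hq⟩, hpq⟩ := (hA.isCompact.prod hB.isCompact).exists_isMinOn
    ⟨(a, b), ha, hb⟩ (continuous_dist.continuousOn (s := A ×ˢ B))
  have hmin : ∀ x ∈ A, ∀ y ∈ B, dist p q ≤ dist x y := fun x hx y hy => hpq (mk_mem_prod hx hy)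
  have hp' : p ∈ {x | ∃ σ ∈ S, σ x = x} := hcov ▸ Or.inl hp
  have hq' : q ∈ {x | ∃ σ ∈ S, σ x = x} := hcov ▸ Or.inr hq
  obtain ⟨σ, hσ, hσp⟩ := hp'
  obtain ⟨τ, hτ, hτq⟩ := hq'
  have hpB : p ∉ B := fun h => hAB.le_bot ⟨hp, h⟩
  have hqA : q ∉ A := fun h => hAB.le_bot ⟨h, hq⟩
  obtain ⟨η₁, e1, e1'⟩ := Metric.isOpen_iff.1 hB.isOpen_compl p hpB
  obtain ⟨η₂, e2, e2'⟩ := Metric.isOpen_iff.1 hA.isOpen_compl q hqA
  have h := two_mirrors hX hr hU σ τ (hinv σ hσ) (hinv τ hτ) m hm (hprod τ hτ σ hσ) A B p q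
    (lt_min e1 e2) (by
      intro z hz hzp
      have h3 : z ∈ A ∪ B := by rw [hcov]; exact ⟨σ, hσ, hz⟩
      rcases h3 with h3 | h3
      · exact h3
      · exact absurd h3 (e1' (Metric.mem_ball.2 (hzp.trans_le (min_le_left _ _))))) (by
      intro z hz hzp
      have h3 : z ∈ A ∪ B := by rw [hcov]; exact ⟨τ, hτ, hz⟩
      rcases h3 with h3 | h3
      · exact absurd h3 (e2' (Metric.mem_ball.2 (hzp.trans_le (min_le_right _ _))))
      · exact h3) hσp hτq (fun h => hpB (h ▸ hq)) (fun z hz => hmin z hz q hq)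
    (fun z hz => hmin p hp z hz)
  obtain ⟨g, l, l0, l1, hg⟩ := h
  exact ⟨g, l, l0, l1.trans (mul_le_mul_of_nonneg_left (hmin a ha b hb) (by positivity)), hg⟩

theorem mirror_diam [CompactSpace X] [Nonempty X] (hX : GeodSpace X) {r : ℝ} (hr : 0 < r)
    (hU : UniqGeod X r) (S : Set (X ≃ᵢ X)) (hS : S.Finite) (hne : S.Nonempty) (m : ℕ)
    (hm : 1 ≤ m) (h2 : ∀ σ ∈ S, σ * σ = 1) (hprod : ∀ σ ∈ S, ∀ τ ∈ S, (σ * τ) ^ m = 1)
    (hcon : ¬ IsConnected {x | ∃ σ ∈ S, σ x = x}) :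
    ClosedGeod X (2 * m * Metric.diam (univ : Set X)) := by
  have hbd : Bornology.IsBounded (univ : Set X) := isCompact_univ.isBounded
  have hdD : ∀ x y : X, dist x y ≤ Metric.diam (univ : Set X) := fun x y =>
    Metric.dist_le_diam_of_mem hbd (mem_univ x) (mem_univ y)
  have hm' : (1 : ℝ) ≤ m := by exact_mod_cast hm
  have hcl : IsClosed {x : X | ∃ σ ∈ S, σ x = x} := by
    have : {x : X | ∃ σ ∈ S, σ x = x} = ⋃ σ ∈ S, {x | σ x = x} := by
      ext x
      simp
    rw [this]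
    exact hS.isClosed_biUnion fun σ _ => isClosed_eq σ.continuous continuous_id
  by_cases hemp : {x : X | ∃ σ ∈ S, σ x = x}.Nonempty
  · have hpre : ¬ IsPreconnected {x : X | ∃ σ ∈ S, σ x = x} := fun h => hcon ⟨hemp, h⟩
    rw [isPreconnected_closed_iff] at hpre
    push Not at hpre
    obtain ⟨t, t', ht, ht', hsub, ⟨a, ha, hat⟩, ⟨b, hb, hbt⟩, hint⟩ := hpre
    set Q := {x : X | ∃ σ ∈ S, σ x = x} with hQ
    obtain ⟨g, l, l0, l1, hg⟩ := mirror hX hr hU S m hm h2 hprod (Q ∩ t) (Q ∩ t')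
      (hcl.inter ht) (hcl.inter ht') (by
        rw [Set.disjoint_iff]
        rintro x ⟨h3, h4⟩
        have : x ∈ Q ∩ (t ∩ t') := ⟨h3.1, h3.2, h4.2⟩
        rw [hint] at this
        exact this) (by
        ext x
        constructor
        · rintro (h3 | h3)
          · exact h3.1
          · exact h3.1
        · intro h3
          rcases hsub h3 with h4 | h4
          · exact Or.inl ⟨h3, h4⟩
          · exact Or.inr ⟨h3, h4⟩) a b ⟨ha, hat⟩ ⟨hb, hbt⟩
    exact ⟨g, l, l0, l1.trans (mul_le_mul_of_nonneg_left (hdD a b) (by positivity)), hg⟩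
  · obtain ⟨σ, hσ⟩ := hne
    obtain ⟨x⟩ := ‹Nonempty X›
    obtain ⟨g, l, l0, l1, hg⟩ := free_isometry hX σ 2 (by norm_num)
      (by rw [pow_two]; exact h2 σ hσ) (fun x hx => hemp ⟨x, σ, hσ, hx⟩) x
    refine ⟨g, l, l0, l1.trans ?_, hg⟩
    have h3 := hdD x (σ x)
    have h4 : (0 : ℝ) ≤ dist x (σ x) := dist_nonneg
    push_cast
    nlinarith

end Pool.Agent.K7.H35.M
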